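import Pool.Agent.H37.CNJ.Stmts

/-!
# Row UTS of the board `cnj`: Sylow subgroups of `GL_3(q)` and `GL_4(q)`
-/

set_option autoImplicit false

namespace Pool.CND

open Finset

namespace UTSx

variable {F : Type} [Field F]

/-- unitriangular matrices, a subgroup of the finite general linear group -/
def ut (n : ℕ) (F : Type) [Field F] [Finite F] : Subgroup (Matrix.GeneralLinearGroup (Fin n) F) :=
  let M : Submonoid (Matrix.GeneralLinearGroup (Fin n) F) :=
    { carrier := {g | (∀ i j, j < i → g.1 i j = 0) ∧ ∀ i, g.1 i i = 1}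
      one_mem' := by
        constructor
        · intro i j hij
          simp [hij.ne']
        · intro i
          simp
      mul_mem' := by
        intro a b ha hb
        constructor
        · intro i j hij
          rw [Units.val_mul, Matrix.mul_apply]
          refine Finset.sum_eq_zero (fun x _ => ?_)
          rcases lt_or_ge x i with h | h
          · rw [ha.1 i x h, zero_mul]
          · rw [hb.1 x j (lt_of_lt_of_le hij h), mul_zero]
        · intro i
          rw [Units.val_mul, Matrix.mul_apply, Finset.sum_eq_single i]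
          · rw [ha.2 i, hb.2 i, mul_one]
          · intro x _ hx
            rcases lt_or_gt_of_ne hx with h | h
            · rw [ha.1 i x h, zero_mul]
            · rw [hb.1 x i h, mul_zero]
          · intro h
            exact absurd (Finset.mem_univ i) h }
  { M with
    inv_mem' := by
      intro a ha
      have h : a⁻¹ = a ^ (orderOf a - 1) := by
        rw [eq_comm, ← mul_left_inj a, inv_mul_cancel, ← pow_succ,
          Nat.sub_add_cancel (orderOf_pos a), pow_orderOf_eq_one]
      show a⁻¹ ∈ M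
      rw [h]
      exact pow_mem (show a ∈ M from ha) _ }

theorem mem_ut (n : ℕ) [Finite F] (g : Matrix.GeneralLinearGroup (Fin n) F) :
    g ∈ ut n F ↔ (∀ i j, j < i → g.1 i j = 0) ∧ ∀ i, g.1 i i = 1 := Iff.rfl

/-- the matrix with given entries above the diagonal -/
def mat (n : ℕ) (e : {x : Fin n × Fin n // x.1 < x.2} → F) : Matrix (Fin n) (Fin n) F :=
  fun i j => if h : i < j then e ⟨(i, j), h⟩ else if i = j then 1 else 0

theorem det_mat (n : ℕ) (e : {x : Fin n × Fin n // x.1 < x.2} → F) : (mat n e).det = 1 := by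
  have h : (mat n e).BlockTriangular id := by
    intro i j hij
    have h1 : ¬ i < j := not_lt.mpr (le_of_lt hij)
    have h2 : i ≠ j := ne_of_gt hij
    simp [mat, h1, h2]
  rw [Matrix.det_of_isUpperTriangular h]
  refine Finset.prod_eq_one (fun i _ => ?_)
  simp [mat]

theorem card_ut (n : ℕ) [Finite F] :
    Nat.card (ut n F) = Nat.card F ^ Nat.card {x : Fin n × Fin n // x.1 < x.2} := by
  rw [← Nat.card_fun]
  refine Nat.card_congr ⟨fun g x => g.1.1 x.1.1 x.1.2,
    fun e => ⟨Matrix.GeneralLinearGroup.mkOfDetNeZero (mat n e)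
      (by rw [det_mat]; exact one_ne_zero), ?_⟩, ?_, ?_⟩
  · rw [mem_ut]
    constructor
    · intro i j hij
      have h1 : ¬ i < j := not_lt.mpr (le_of_lt hij)
      have h2 : i ≠ j := ne_of_gt hij
      show mat n e i j = 0
      simp [mat, h1, h2]
    · intro i
      show mat n e i i = 1
      simp [mat]
  · intro g
    apply Subtype.ext
    apply Units.ext
    ext i j
    show mat n (fun x => g.1.1 x.1.1 x.1.2) i j = g.1.1 i j
    have hg := (mem_ut n g.1).mp g.2
    unfold mat
    split_ifs with h1 h2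
    · rfl
    · subst h2
      exact (hg.2 i).symm
    · exact (hg.1 i j (lt_of_le_of_ne (not_lt.mp h1) (Ne.symm h2))).symm
  · intro e
    funext x
    show mat n e x.1.1 x.1.2 = e x
    unfold mat
    rw [dif_pos x.2]

theorem syl (n p f q m N : ℕ) [Finite F] (hp : p.Prime) (hq : q = p ^ f) (hF : Nat.card F = q)
    (hm : Nat.card {x : Fin n × Fin n // x.1 < x.2} = m)
    (hN : Nat.card (Matrix.GeneralLinearGroup (Fin n) F) = q ^ m * N) (hpN : ¬ p ∣ N)
    (S : Sylow p (Matrix.GeneralLinearGroup (Fin n) F)) : Nonempty (S ≃* ut n F) := by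
  have : Fact p.Prime := ⟨hp⟩
  have hc : Nat.card (ut n F) = q ^ m := by rw [card_ut, hF, hm]
  have hq0 : 0 < q := by rw [hq]; exact pow_pos hp.pos f
  have h1 : IsPGroup p (ut n F) := by
    apply IsPGroup.of_card (n := f * m)
    rw [hc, hq, ← pow_mul]
  have h2 : (ut n F).index = N := by
    have h3 := (ut n F).card_mul_index
    rw [hc, hN] at h3
    exact Nat.eq_of_mul_eq_mul_left (pow_pos hq0 m) h3
  have h4 : ¬ p ∣ (ut n F).index := by rw [h2]; exact hpN
  exact ⟨Sylow.equiv S (h1.toSylow h4)⟩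

end UTSx

open UTSx in
theorem uts_thm (h3 : S_UT3) (h4 : S_UT4) (hc : S_CNG) : S_UTS := by
  intro p f q k F _ _ _ _ _ _ hp hp2 hq hF
  have hF1 : Fintype F := Fintype.ofFinite F
  have hq1 : 1 < q := by rw [← hF]; exact Finite.one_lt_card
  have hf : f ≠ 0 := by
    rintro rfl
    rw [hq, pow_zero] at hq1
    exact lt_irrefl _ hq1
  have hpq : p ∣ q := by rw [hq]; exact dvd_pow_self p hf
  have hFc : Fintype.card F = q := by rw [← Nat.card_eq_fintype_card]; exact hF
  have hnd : ∀ i : ℕ, i ≠ 0 → ¬ p ∣ q ^ i - 1 := by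
    intro i hi hd
    have h1 : p ∣ q ^ i := dvd_trans hpq (dvd_pow_self q hi)
    have h2 : p ∣ 1 := by
      have h5 := Nat.dvd_sub h1 hd
      have h6 : q ^ i - (q ^ i - 1) = 1 := by
        have := Nat.one_le_pow i q (by omega)
        omega
      rwa [h6] at h5
    exact hp.one_lt.ne' (Nat.dvd_one.mp h2)
  have hsub : ∀ a b : ℕ, q ^ (a + b) - q ^ a = q ^ a * (q ^ b - 1) := by
    intro a b
    rw [pow_add, Nat.mul_sub, mul_one]
  refine ⟨fun S => ?_, fun S => ?_⟩
  · have hN : Nat.card (Matrix.GeneralLinearGroup (Fin 3) F) =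
        q ^ 3 * ((q ^ 3 - 1) * (q ^ 2 - 1) * (q ^ 1 - 1)) := by
      rw [Matrix.card_GL_field, Fin.prod_univ_three, hFc]
      have e0 := hsub 0 3
      have e1 := hsub 1 2
      have e2 := hsub 2 1
      simp only [Fin.val_zero, Fin.val_one, Fin.val_two] at *
      norm_num only [Nat.reduceAdd, zero_add] at e0 e1 e2 ⊢
      rw [e0, e1, e2]
      ring
    have hnN : ¬ p ∣ (q ^ 3 - 1) * (q ^ 2 - 1) * (q ^ 1 - 1) := by
      rw [hp.dvd_mul, hp.dvd_mul]
      rintro ((h | h) | h)
      · exact hnd 3 (by norm_num) h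
      · exact hnd 2 (by norm_num) h
      · exact hnd 1 (by norm_num) h
    have hm : Nat.card {x : Fin 3 × Fin 3 // x.1 < x.2} = 3 := by
      rw [Nat.card_eq_fintype_card]; decide
    rw [hc k _ _ (syl 3 p f q 3 _ hp hq hF hm hN hnN S)]
    exact h3 p f q k F (ut 3 F) hp hp2 hq hF (mem_ut 3)
  · have hN : Nat.card (Matrix.GeneralLinearGroup (Fin 4) F) =
        q ^ 6 * ((q ^ 4 - 1) * (q ^ 3 - 1) * (q ^ 2 - 1) * (q ^ 1 - 1)) := by
      rw [Matrix.card_GL_field, Fin.prod_univ_four, hFc]
      have e0 := hsub 0 4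
      have e1 := hsub 1 3
      have e2 := hsub 2 2
      have e3 := hsub 3 1
      have e4 : ((3 : Fin 4) : ℕ) = 3 := rfl
      simp only [Fin.val_zero, Fin.val_one, Fin.val_two, e4] at *
      norm_num only [Nat.reduceAdd, zero_add] at e0 e1 e2 e3 ⊢
      rw [e0, e1, e2, e3]
      ring
    have hnN : ¬ p ∣ (q ^ 4 - 1) * (q ^ 3 - 1) * (q ^ 2 - 1) * (q ^ 1 - 1) := by
      rw [hp.dvd_mul, hp.dvd_mul, hp.dvd_mul]
      rintro (((h | h) | h) | h)
      · exact hnd 4 (by norm_num) h
      · exact hnd 3 (by norm_num) h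
      · exact hnd 2 (by norm_num) h
      · exact hnd 1 (by norm_num) h
    have hm : Nat.card {x : Fin 4 × Fin 4 // x.1 < x.2} = 6 := by
      rw [Nat.card_eq_fintype_card]; decide
    rw [hc k _ _ (syl 4 p f q 6 _ hp hq hF hm hN hnN S)]
    exact h4 p f q k F (ut 4 F) hp hp2 hq hF (mem_ut 4)

end Pool.CND
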